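import Pool.Agent.Nil.Final

set_option autoImplicit false
open scoped Classical

namespace Pool.Agent.Nil

variable {F : Type} [Field F]

lemma iter_mem {U : Type} [NonUnitalRing U] [Module F U] [IsScalarTower F U U]
    [SMulCommClass F U U] (a : U) (n : ℕ) :
    (fun x : U => a * x)^[n] a ∈ NonUnitalAlgebra.adjoin F {a} := by
  induction n with
  | zero => exact NonUnitalAlgebra.self_mem_adjoin_singleton F a
  | succ n ih =>
    rw [Function.iterate_succ_apply']
    exact mul_mem (NonUnitalAlgebra.self_mem_adjoin_singleton F a) ih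

lemma fin_poly {U : Type} [NonUnitalRing U] [Module F U] [IsScalarTower F U U]
    [SMulCommClass F U U] (a : U) (h : FiniteDimensional F (NonUnitalAlgebra.adjoin F {a})) :
    ∃ q : Polynomial F, q ≠ 0 ∧ Polynomial.aeval ((a : U) : Unitization F U) q = 0 := by
  set d := Module.finrank F (NonUnitalAlgebra.adjoin F {a}) with hd
  obtain ⟨E, hE⟩ : ∃ E : ℕ → NonUnitalAlgebra.adjoin F {a},
      ∀ i, ((E i : NonUnitalAlgebra.adjoin F {a}) : U) = (fun x : U => a * x)^[i] a :=
    ⟨fun i => ⟨_, iter_mem a i⟩, fun i => rfl⟩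
  set Θ : (Fin (d + 1) → F) →ₗ[F] NonUnitalAlgebra.adjoin F {a} :=
    { toFun := fun c => ∑ i, c i • E i
      map_add' := by intro x y; simp [add_smul, Finset.sum_add_distrib]
      map_smul' := by intro x y; simp [mul_smul, Finset.smul_sum] } with hΘ
  have h1 : LinearMap.ker Θ ≠ ⊥ := by
    apply LinearMap.ker_ne_bot_of_finrank_lt
    rw [Module.finrank_fintype_fun_eq_card, Fintype.card_fin]
    omega
  obtain ⟨c, hc, hc0⟩ := (Submodule.ne_bot_iff _).mp h1
  rw [LinearMap.mem_ker] at hc
  have hc1 : ∑ i, c i • ((fun x : U => a * x)^[i] a) = 0 := by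
    have := congrArg (fun x : NonUnitalAlgebra.adjoin F {a} => (x : U)) hc
    simpa [hΘ, hE] using this
  refine ⟨∑ i : Fin (d + 1), Polynomial.C (c i) * Polynomial.X ^ ((i : ℕ) + 1), ?_, ?_⟩
  · intro h0
    apply hc0
    funext j
    have := congrArg (fun p : Polynomial F => p.coeff ((j : ℕ) + 1)) h0
    simp only [Polynomial.finsetSum_coeff, Polynomial.coeff_C_mul, Polynomial.coeff_X_pow,
      Polynomial.coeff_zero] at this
    rw [Finset.sum_eq_single j] at this
    · simpa using this
    · intro i _ hij
      have : ¬ ((j : ℕ) = (i : ℕ)) := by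
        intro h
        apply hij
        apply Fin.ext
        omega
      simp [this]
    · intro h; simp at h
  · rw [map_sum]
    have h2 : ∀ i : Fin (d + 1), Polynomial.aeval ((a : U) : Unitization F U)
        (Polynomial.C (c i) * Polynomial.X ^ ((i : ℕ) + 1)) =
        ((c i • ((fun x : U => a * x)^[i] a) : U) : Unitization F U) := by
      intro i
      rw [map_mul, Polynomial.aeval_C, map_pow, Polynomial.aeval_X, ← inr_iter,
        Unitization.inr_smul, Algebra.smul_def]
    rw [Finset.sum_congr rfl (fun i _ => h2 i)]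
    have h3 : (∑ i : Fin (d + 1), ((c i • ((fun x : U => a * x)^[i] a) : U) : Unitization F U)) =
        ((∑ i : Fin (d + 1), c i • ((fun x : U => a * x)^[i] a) : U) : Unitization F U) := by
      exact (map_sum (Unitization.inrNonUnitalAlgHom F U) _ _).symm
    rw [h3, hc1, Unitization.inr_zero]

lemma nil_fin {U : Type} [NonUnitalRing U] [Module F U] [IsScalarTower F U U]
    [SMulCommClass F U U] (a : U) (n : ℕ) (hn : (fun x : U => a * x)^[n] a = 0) :
    FiniteDimensional F (NonUnitalAlgebra.adjoin F {a}) := by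
  have h0 : ∀ j : ℕ, n ≤ j → (fun x : U => a * x)^[j] a = 0 := by
    intro j hj
    induction j, hj using Nat.le_induction with
    | base => exact hn
    | succ j _ ih => rw [Function.iterate_succ_apply', ih, mul_zero]
  have hmul : ∀ i j : ℕ, (fun x : U => a * x)^[i] a * (fun x : U => a * x)^[j] a =
      (fun x : U => a * x)^[i + j + 1] a := by
    intro i j
    induction i with
    | zero => simp only [Function.iterate_zero, id]; rw [zero_add, Function.iterate_succ_apply']
    | succ i ih =>
      have e : i + 1 + j + 1 = (i + j + 1) + 1 := by ring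
      rw [Function.iterate_succ_apply', mul_assoc, ih, e, Function.iterate_succ_apply' _ (i + j + 1)]
  have h1 : (Subsemigroup.closure ({a} : Set U) : Set U) ⊆
      (fun i : ℕ => (fun x : U => a * x)^[i] a) '' (Set.Iic n) := by
    intro x hx
    have h2 : ∃ i : ℕ, (fun x : U => a * x)^[i] a = x := by
      induction hx using Subsemigroup.closure_induction with
      | mem x hx => exact ⟨0, by simpa using hx.symm⟩
      | mul x z _ _ hx hz =>
        obtain ⟨i, rfl⟩ := hx
        obtain ⟨j, rfl⟩ := hz
        exact ⟨i + j + 1, (hmul i j).symm⟩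
    obtain ⟨i, rfl⟩ := h2
    by_cases hi : i ≤ n
    · exact ⟨i, hi, rfl⟩
    · exact ⟨n, le_refl n, by simp only [hn, h0 i (by omega)]⟩
  have h2 : (Subsemigroup.closure ({a} : Set U) : Set U).Finite :=
    ((Set.finite_Iic n).image _).subset h1
  have h3 : FiniteDimensional F (NonUnitalAlgebra.adjoin F ({a} : Set U)).toSubmodule := by
    rw [NonUnitalAlgebra.adjoin_eq_span]
    exact FiniteDimensional.span_of_finite F h2
  exact h3

/-- Final form. -/
theorem alg_main (F : Type) [Field F] [Countable F] (U : Type) [NonUnitalRing U] [Module F U]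
    [IsScalarTower F U U] [SMulCommClass F U U] (hrank : Module.rank F U ≤ Cardinal.aleph0)
    (halg : ∀ a : U, FiniteDimensional F (NonUnitalAlgebra.adjoin F {a})) :
    ∃ (N : Type) (_ : NonUnitalRing N) (_ : Module F N) (_ : IsScalarTower F N N)
      (_ : SMulCommClass F N N),
      Module.rank F N ≤ Cardinal.aleph0 ∧
      (∀ b : N, FiniteDimensional F (NonUnitalAlgebra.adjoin F {b})) ∧
      (∀ b : N, ∃ n : ℕ, (fun x : N => b * x)^[n] b = 0) ∧
      ¬ ∃ f : U →ₙₐ[F] N, Function.Surjective f := by
  obtain ⟨N, j1, j2, j3, j4, h1, h2, h3⟩ := nonuniv (F := F) U hrank (fun a => fin_poly a (halg a))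
  refine ⟨N, j1, j2, j3, j4, h2, ?_, h1, h3⟩
  intro b
  obtain ⟨n, hn⟩ := h1 b
  exact nil_fin b n hn

end Pool.Agent.Nil
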