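import Pool.Agent.Nil.Main

set_option autoImplicit false
open scoped Classical

namespace Pool.Agent.Nil

variable {F : Type} [Field F]

lemma nilp_pow {E : Type} [Ring E] [Algebra F E] {x : E} (hx : ∃ n : ℕ, x ^ n = 0)
    {q : Polynomial F} (hq : q ≠ 0) (h : Polynomial.aeval x q = 0) : x ^ q.natDegree = 0 := by
  obtain ⟨n, hn⟩ := hx
  have h1 : minpoly F x ∣ Polynomial.X ^ n := by
    apply minpoly.dvd
    rw [map_pow, Polynomial.aeval_X, hn]
  obtain ⟨i, _, hi⟩ := (dvd_prime_pow Polynomial.prime_X n).mp h1
  have h2 : minpoly F x ∣ q := minpoly.dvd F x h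
  have h3 : (Polynomial.X : Polynomial F) ^ i ∣ q := (hi.symm.dvd).trans h2
  have h4 : i ≤ q.natDegree := by
    have := Polynomial.natDegree_le_of_dvd h3 hq
    rwa [Polynomial.natDegree_X_pow] at this
  have h5 : x ^ i = 0 := by
    have h6 : Polynomial.aeval x ((Polynomial.X : Polynomial F) ^ i) = 0 := by
      obtain ⟨c, hc⟩ := hi.dvd
      rw [hc, map_mul, minpoly.aeval, zero_mul]
    rwa [map_pow, Polynomial.aeval_X] at h6
  exact pow_eq_zero_of_le h4 h5

lemma rank_adjoin {E : Type} [Ring E] [Algebra F E] (y : Bool → E) :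
    Module.rank F (NonUnitalAlgebra.adjoin F (Set.range y)) ≤ Cardinal.aleph0 := by
  have h1 : Module.rank F (NonUnitalAlgebra.adjoin F (Set.range y)) =
      Module.rank F (NonUnitalAlgebra.adjoin F (Set.range y)).toSubmodule := rfl
  rw [h1, NonUnitalAlgebra.adjoin_eq_span]
  refine le_trans (rank_span_le _) ?_
  have h2 : (Subsemigroup.closure (Set.range y) : Set E) ⊆
      Set.range (fun u : List Bool => (u.map y).prod) := by
    intro x hx
    induction hx using Subsemigroup.closure_induction with
    | mem x hx => obtain ⟨b, rfl⟩ := hx; exact ⟨[b], by simp⟩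
    | mul x z _ _ hx hz =>
      obtain ⟨u, rfl⟩ := hx
      obtain ⟨v, rfl⟩ := hz
      exact ⟨u ++ v, by simp⟩
  refine le_trans (Cardinal.mk_le_mk_of_subset h2) ?_
  exact Set.Countable.le_aleph0 (Set.countable_range _)

lemma word_inr {U : Type} [NonUnitalRing U] [Module F U] [IsScalarTower F U U]
    [SMulCommClass F U U] (a : Bool → U) (u : List Bool) (hu : u ≠ []) :
    ∃ w : U, (u.map (fun b => ((a b : U) : Unitization F U))).prod = (w : Unitization F U) := by
  induction u with
  | nil => exact absurd rfl hu
  | cons b u ih =>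
    by_cases h : u = []
    · subst h; exact ⟨a b, by simp⟩
    · obtain ⟨w, hw⟩ := ih h
      exact ⟨a b * w, by rw [List.map_cons, List.prod_cons, hw, Unitization.inr_mul]⟩

/-- No algebraic algebra of countable dimension over a countable field maps onto all nil algebras
of countable dimension. -/
theorem nonuniv [Countable F] (U : Type) [NonUnitalRing U] [Module F U] [IsScalarTower F U U]
    [SMulCommClass F U U] (hrank : Module.rank F U ≤ Cardinal.aleph0)
    (halg : ∀ a : U, ∃ q : Polynomial F, q ≠ 0 ∧
      Polynomial.aeval ((a : U) : Unitization F U) q = 0) :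
    ∃ (N : Type) (_ : NonUnitalRing N) (_ : Module F N) (_ : IsScalarTower F N N)
      (_ : SMulCommClass F N N),
      (∀ b : N, ∃ n : ℕ, (fun x : N => b * x)^[n] b = 0) ∧
      Module.rank F N ≤ Cardinal.aleph0 ∧
      ¬ ∃ f : U →ₙₐ[F] N, Function.Surjective f := by
  have hcount : Countable U := by
    let B := Module.Basis.ofVectorSpace F U
    have h1 : Cardinal.mk (Module.Basis.ofVectorSpaceIndex F U) ≤ Cardinal.aleph0 := by
      rw [B.mk_eq_rank'']; exact hrank
    have h2 : Countable (Module.Basis.ofVectorSpaceIndex F U) := Cardinal.mk_le_aleph0_iff.mp h1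
    exact Countable.of_equiv _ B.repr.toEquiv.symm
  obtain ⟨e, he⟩ := exists_surjective_nat (U × U)
  set pr : ℕ → Bool → U := fun k b => if b then (e k).2 else (e k).1 with hpr
  set w : ℕ → List Bool → Unitization F U :=
    fun k u => (u.map (fun b => ((pr k b : U) : Unitization F U))).prod with hw
  set H : ℕ → List Bool → ℕ := fun k u =>
    if h : ∃ q : Polynomial F, q ≠ 0 ∧ Polynomial.aeval (w k u) q = 0
      then (Classical.choose h).natDegree else 0 with hH
  obtain ⟨V, i1, i2, y, hnil, hu⟩ := core (F := F) H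
  refine ⟨NonUnitalAlgebra.adjoin F (Set.range y), inferInstance, inferInstance, inferInstance,
    inferInstance, ?_, rank_adjoin y, ?_⟩
  · intro b
    obtain ⟨n, hn⟩ := hnil b.1 b.2
    refine ⟨n, ?_⟩
    have key : ∀ j : ℕ, (((fun x : NonUnitalAlgebra.adjoin F (Set.range y) => b * x)^[j] b :
        NonUnitalAlgebra.adjoin F (Set.range y)) : Module.End F V) = b.1 ^ (j + 1) := by
      intro j
      induction j with
      | zero => simp
      | succ j ih =>
        rw [Function.iterate_succ_apply', pow_succ', ← ih]
        rfl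
    apply Subtype.ext
    rw [key, hn]
    rfl
  · rintro ⟨f, hf⟩
    have hy : ∀ b, ∃ a : U, ((f a : NonUnitalAlgebra.adjoin F (Set.range y)) : Module.End F V) = y b := by
      intro b
      obtain ⟨a, ha⟩ := hf ⟨y b, NonUnitalAlgebra.subset_adjoin F ⟨b, rfl⟩⟩
      exact ⟨a, by rw [ha]⟩
    choose a ha using hy
    obtain ⟨k, hk⟩ := he (a false, a true)
    have hprk : pr k = a := by
      funext b
      cases b <;> simp [hpr, hk]
    obtain ⟨u, hu1, hu2⟩ := hu k
    set g : Unitization F U →ₐ[F] Module.End F V :=
      Unitization.lift ((NonUnitalSubalgebraClass.subtype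
        (NonUnitalAlgebra.adjoin F (Set.range y))).comp f) with hg
    have hga : ∀ x : U, g (x : Unitization F U) =
        ((f x : NonUnitalAlgebra.adjoin F (Set.range y)) : Module.End F V) := by
      intro x
      rw [hg]
      simp
    have hgw : g (w k u) = (u.map y).prod := by
      rw [hw]
      simp only
      rw [map_list_prod, List.map_map, hprk]
      congr 1
      apply List.map_congr_left
      intro b _
      simp only [Function.comp]
      rw [hga, ha]
    obtain ⟨x, hx⟩ := word_inr (F := F) (pr k) u hu1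
    have hq : ∃ q : Polynomial F, q ≠ 0 ∧ Polynomial.aeval (w k u) q = 0 := by
      obtain ⟨q, hq1, hq2⟩ := halg x
      exact ⟨q, hq1, by rw [hw]; simp only; rw [hx, hq2]⟩
    have hHq : H k u = (Classical.choose hq).natDegree := by
      rw [hH]; simp only; rw [dif_pos hq]
    have hspec := Classical.choose_spec hq
    apply hu2
    rw [hHq]
    apply nilp_pow _ hspec.1
    · rw [← hgw, Polynomial.aeval_algHom_apply, hspec.2, map_zero]
    · have hmem : (u.map y).prod ∈ NonUnitalAlgebra.adjoin F (Set.range y) := by
        rw [← hgw, hw]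
        simp only
        rw [hx, hga]
        exact (f x).2
      obtain ⟨n, hn⟩ := hnil _ hmem
      exact ⟨n + 1, hn⟩

end Pool.Agent.Nil

namespace Pool.Agent.Nil

lemma inr_iter {F : Type} [Field F] {U : Type} [NonUnitalRing U] [Module F U]
    [IsScalarTower F U U] [SMulCommClass F U U] (a : U) (n : ℕ) :
    (((fun x : U => a * x)^[n] a : U) : Unitization F U) = (a : Unitization F U) ^ (n + 1) := by
  induction n with
  | zero => simp
  | succ n ih =>
    rw [Function.iterate_succ_apply', Unitization.inr_mul, ih, ← pow_succ']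

/-- Over a countable field no nil algebra of countable dimension maps onto all nil algebras of
countable dimension. -/
theorem nonuniv_nil (F : Type) [Field F] [Countable F] (U : Type) [NonUnitalRing U] [Module F U]
    [IsScalarTower F U U] [SMulCommClass F U U]
    (hnil : ∀ a : U, ∃ n : ℕ, (fun x : U => a * x)^[n] a = 0)
    (hrank : Module.rank F U ≤ Cardinal.aleph0) :
    ∃ (N : Type) (_ : NonUnitalRing N) (_ : Module F N) (_ : IsScalarTower F N N)
      (_ : SMulCommClass F N N),
      (∀ b : N, ∃ n : ℕ, (fun x : N => b * x)^[n] b = 0) ∧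
      Module.rank F N ≤ Cardinal.aleph0 ∧
      ¬ ∃ f : U →ₙₐ[F] N, Function.Surjective f := by
  apply nonuniv U hrank
  intro a
  obtain ⟨n, hn⟩ := hnil a
  refine ⟨Polynomial.X ^ (n + 1), pow_ne_zero _ Polynomial.X_ne_zero, ?_⟩
  rw [map_pow, Polynomial.aeval_X, ← inr_iter, hn, Unitization.inr_zero]

end Pool.Agent.Nil
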