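import Mathlib

set_option autoImplicit false
open scoped Classical

namespace Pool.Agent.Nil

variable {F : Type} [Field F]

/-- Functions on words in two letters. -/
abbrev Fn (F : Type) : Type := List Bool → F

/-- Shift operators. -/
def Lop (a : List Bool) : Fn F →ₗ[F] Fn F where
  toFun P := fun w => P (a ++ w)
  map_add' _ _ := rfl
  map_smul' _ _ := rfl

@[simp] lemma Lop_apply (a : List Bool) (P : Fn F) (w : List Bool) : Lop a P w = P (a ++ w) := rfl

lemma Lop_nil (P : Fn F) : Lop [] P = P := by
  funext w; simp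

lemma Lop_Lop (a b : List Bool) (P : Fn F) : Lop a (Lop b P) = Lop (b ++ a) P := by
  funext w; simp

/-- Convolution over splittings of a word. -/
def star (A B : Fn F) : Fn F := fun w =>
  ∑ i ∈ Finset.range (w.length + 1), A (w.take i) * B (w.drop i)

/-- The unit. -/
def delta : Fn F := fun w => if w = [] then 1 else 0

lemma star_add_left (A A' B : Fn F) : star (A + A') B = star A B + star A' B := by
  funext w; simp [star, add_mul, Finset.sum_add_distrib]

lemma star_add_right (A B B' : Fn F) : star A (B + B') = star A B + star A B' := by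
  funext w; simp [star, mul_add, Finset.sum_add_distrib]

lemma star_smul_left (c : F) (A B : Fn F) : star (c • A) B = c • star A B := by
  funext w; simp [star, Finset.mul_sum, mul_assoc]

lemma star_smul_right (c : F) (A B : Fn F) : star A (c • B) = c • star A B := by
  funext w
  simp only [star, Pi.smul_apply, smul_eq_mul, Finset.mul_sum]
  apply Finset.sum_congr rfl
  intro i _
  ring

lemma star_zero_left (B : Fn F) : star 0 B = 0 := by
  funext w; simp [star]

lemma star_zero_right (A : Fn F) : star A 0 = 0 := by
  funext w; simp [star]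

lemma star_delta (A : Fn F) : star A delta = A := by
  funext w
  unfold star delta
  rw [Finset.sum_eq_single w.length]
  · simp
  · intro i hi hne
    rw [Finset.mem_range] at hi
    have : w.drop i ≠ [] := by
      intro h
      rw [List.drop_eq_nil_iff] at h
      omega
    simp [this]
  · intro h; simp at h

/-- Homogeneous of degree `D`. -/
def Hom (D : ℕ) (A : Fn F) : Prop := ∀ w, w.length ≠ D → A w = 0

lemma star_hom_append {D : ℕ} {A : Fn F} (hA : Hom D A) (B : Fn F) (a w : List Bool)
    (ha : a.length = D) : star A B (a ++ w) = A a * B w := by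
  unfold star
  rw [Finset.sum_eq_single D]
  · rw [← ha]; simp
  · intro i hi hne
    rw [Finset.mem_range] at hi
    rw [hA, zero_mul]
    rw [List.length_take]
    omega
  · intro h
    rw [Finset.mem_range] at h
    simp at h
    omega

lemma star_hom_short {D : ℕ} {A : Fn F} (hA : Hom D A) (B : Fn F) (w : List Bool)
    (hw : w.length < D) : star A B w = 0 := by
  unfold star
  apply Finset.sum_eq_zero
  intro i _
  rw [hA, zero_mul]
  rw [List.length_take]
  omega

lemma star_hom_hom {D E : ℕ} {A B : Fn F} (hA : Hom D A) (hB : Hom E B) :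
    Hom (D + E) (star A B) := by
  intro w hw
  by_cases h : w.length < D
  · exact star_hom_short hA B w h
  · push Not at h
    have e : w = w.take D ++ w.drop D := (List.take_append_drop D w).symm
    rw [e, star_hom_append hA B _ _ (by rw [List.length_take]; omega), hB, mul_zero]
    rw [List.length_drop]
    omega

lemma Lop_star (x : List Bool) (A B : Fn F) : Lop x (star A B) =
    star (Lop x A) B + fun w => ∑ j ∈ Finset.range x.length, A (x.take j) * B (x.drop j ++ w) := by
  funext w
  simp only [Lop_apply, star, Pi.add_apply, List.length_append]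
  rw [add_assoc, Finset.sum_range_add, add_comm]
  congr 1
  · apply Finset.sum_congr rfl
    intro j _
    rw [List.take_append, List.drop_append, List.take_of_length_le (by omega : x.length ≤ x.length + j),
      List.drop_eq_nil_of_le (by omega : x.length ≤ x.length + j)]
    simp
  · apply Finset.sum_congr rfl
    intro j hj
    rw [Finset.mem_range] at hj
    rw [List.take_append_of_le_length (by omega), List.drop_append_of_le_length (by omega)]

/-- The product functionals. -/
def PP (A : Bool → Fn F) : List Bool → Fn F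
  | [] => delta
  | (s :: ss) => star (A s) (PP A ss)

lemma PP_hom {D : ℕ} {A : Bool → Fn F} (hA : ∀ s, Hom D (A s)) (ss : List Bool) :
    Hom (D * ss.length) (PP A ss) := by
  induction ss with
  | nil =>
    intro w hw
    simp only [List.length_nil, mul_zero, ne_eq, List.length_eq_zero_iff] at hw
    simp [PP, delta, hw]
  | cons s ss ih =>
    have := star_hom_hom (hA s) ih
    simp only [PP, List.length_cons]
    convert this using 1
    ring

lemma PP_append {D : ℕ} {A : Bool → Fn F} (hA : ∀ s, Hom D (A s)) (ss ss' : List Bool) :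
    ∀ (x w : List Bool), x.length = D * ss.length →
      PP A (ss ++ ss') (x ++ w) = PP A ss x * PP A ss' w := by
  induction ss with
  | nil =>
    intro x w hx
    simp only [List.length_nil, mul_zero, List.length_eq_zero_iff] at hx
    subst hx
    simp [PP, delta]
  | cons s ss ih =>
    intro x w hx
    simp only [List.length_cons] at hx
    have hD : D ≤ x.length := by rw [hx]; nlinarith
    have e : x = x.take D ++ x.drop D := (List.take_append_drop D x).symm
    have hl : (x.take D).length = D := by rw [List.length_take]; omega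
    have hl2 : (x.drop D).length = D * ss.length := by
      rw [List.length_drop, hx]
      have : D * (ss.length + 1) = D * ss.length + D := by ring
      omega
    rw [e]
    simp only [List.cons_append, PP, List.append_assoc]
    rw [star_hom_append (hA s) _ _ _ hl, star_hom_append (hA s) _ _ _ hl, ih _ _ hl2]
    ring

lemma star_PP {D : ℕ} {A : Bool → Fn F} (hA : ∀ s, Hom D (A s)) (ss ss' : List Bool) :
    star (PP A ss) (PP A ss') = PP A (ss ++ ss') := by
  funext w
  by_cases h : w.length < D * ss.length
  · rw [star_hom_short (PP_hom hA ss) _ _ h]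
    symm
    apply PP_hom hA
    rw [List.length_append]
    have : D * (ss.length + ss'.length) = D * ss.length + D * ss'.length := by ring
    omega
  · push Not at h
    have e : w = w.take (D * ss.length) ++ w.drop (D * ss.length) :=
      (List.take_append_drop _ w).symm
    have hl : (w.take (D * ss.length)).length = D * ss.length := by
      rw [List.length_take]; omega
    rw [e, star_hom_append (PP_hom hA ss) _ _ _ hl, PP_append hA _ _ _ _ hl]

/-- The module generated by the product functionals. -/
def Mod (A : Bool → Fn F) : Submodule F (Fn F) :=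
  Submodule.span F {v | ∃ a ss, v = Lop a (PP A ss)}

lemma mem_Mod (A : Bool → Fn F) (a ss : List Bool) : Lop a (PP A ss) ∈ Mod A :=
  Submodule.subset_span ⟨a, ss, rfl⟩

lemma Lop_mem_Mod (A : Bool → Fn F) (a : List Bool) {v : Fn F} (hv : v ∈ Mod A) :
    Lop a v ∈ Mod A := by
  induction hv using Submodule.span_induction with
  | mem v h =>
    obtain ⟨b, ss, rfl⟩ := h
    rw [Lop_Lop]
    exact mem_Mod A _ _
  | zero => rw [map_zero]; exact Submodule.zero_mem _
  | add x y _ _ hx hy => rw [map_add]; exact Submodule.add_mem _ hx hy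
  | smul c x _ hx => rw [map_smul]; exact Submodule.smul_mem _ c hx

/-- Polynomial operators. -/
def op : List (F × List Bool) → (Fn F →ₗ[F] Fn F)
  | [] => 0
  | (x :: p) => x.1 • Lop x.2 + op p

lemma star_op {e : ℕ} (p : List (F × List Bool)) (hp : ∀ x ∈ p, x.2.length ≤ e) (A B : Fn F)
    (hA : ∀ β : List Bool, β.length ≤ e → A β = 0) : op p (star A B) = star (op p A) B := by
  induction p with
  | nil => simp [op, star_zero_left]
  | cons x p ih =>
    have h1 := ih (fun y hy => hp y (List.mem_cons_of_mem _ hy))
    have h2 : Lop x.2 (star A B) = star (Lop x.2 A) B := by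
      rw [Lop_star]
      have : (fun w => ∑ j ∈ Finset.range x.2.length, A (x.2.take j) * B (x.2.drop j ++ w)) =
          (0 : Fn F) := by
        funext w
        apply Finset.sum_eq_zero
        intro j _
        rw [hA, zero_mul]
        have := hp x List.mem_cons_self
        rw [List.length_take]
        omega
      rw [this, add_zero]
    simp only [op, LinearMap.add_apply, LinearMap.smul_apply]
    rw [h1, h2, star_add_left, star_smul_left]

lemma star_op_pow {e : ℕ} (p : List (F × List Bool)) (hp : ∀ x ∈ p, x.2.length ≤ e)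
    (A B : Fn F) (hA : ∀ (i : ℕ) (β : List Bool), β.length ≤ e → ((op p) ^ i) A β = 0) (c : ℕ) :
    ((op p) ^ c) (star A B) = star (((op p) ^ c) A) B := by
  induction c with
  | zero => simp
  | succ c ih =>
    rw [pow_succ', Module.End.mul_apply, ih, star_op p hp _ _ (hA c), Module.End.mul_apply]

/-- Vanishing on long words. -/
def Van (k : ℕ) (A : Fn F) : Prop := ∀ w : List Bool, k ≤ w.length → A w = 0

lemma Van_op {k : ℕ} (p : List (F × List Bool)) (hp : ∀ x ∈ p, x.2 ≠ []) {A : Fn F}
    (hA : Van (k + 1) A) : Van k (op p A) := by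
  induction p with
  | nil => intro w _; simp [op]
  | cons x p ih =>
    have h1 := ih (fun y hy => hp y (List.mem_cons_of_mem _ hy))
    intro w hw
    have h2 : 0 < x.2.length := List.length_pos_iff.mpr (hp x List.mem_cons_self)
    simp only [op, LinearMap.add_apply, LinearMap.smul_apply, Pi.add_apply, Pi.smul_apply,
      Lop_apply]
    rw [h1 w hw, hA _ (by rw [List.length_append]; omega)]
    simp

lemma Van_pow {k : ℕ} (p : List (F × List Bool)) (hp : ∀ x ∈ p, x.2 ≠ []) :
    ∀ {A : Fn F}, Van k A → ∀ c, k ≤ c → ((op p) ^ c) A = 0 := by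
  induction k with
  | zero =>
    intro A hA c _
    have : A = 0 := by funext w; exact hA w (Nat.zero_le _)
    rw [this, map_zero]
  | succ k ih =>
    intro A hA c hc
    obtain ⟨c, rfl⟩ : ∃ c', c = c' + 1 := ⟨c - 1, by omega⟩
    rw [pow_succ, Module.End.mul_apply]
    exact ih (Van_op p hp hA) c (by omega)

lemma Hom_Van {D : ℕ} {A : Fn F} (hA : Hom D A) (a : List Bool) : Van (D + 1) (Lop a A) := by
  intro w hw
  rw [Lop_apply]
  apply hA
  rw [List.length_append]
  omega

/-- The constraints. -/
def Con (D e : ℕ) (A : Bool → Fn F) (p : List (F × List Bool)) : Prop :=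
  ∀ (s : Bool) (i : ℕ) (α β : List Bool), i ≤ D → α.length ≤ e → β.length ≤ e →
    ((op p) ^ i) (Lop α (A s)) β = 0

lemma Lop_star_short {D : ℕ} {A : Fn F} (hA : Hom D A) (B : Fn F) (a : List Bool)
    (ha : a.length ≤ D) : Lop a (star A B) = star (Lop a A) B := by
  rw [Lop_star]
  have : (fun w => ∑ j ∈ Finset.range a.length, A (a.take j) * B (a.drop j ++ w)) =
      (0 : Fn F) := by
    funext w
    apply Finset.sum_eq_zero
    intro j hj
    rw [Finset.mem_range] at hj
    rw [hA, zero_mul]
    rw [List.length_take]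
    omega
  rw [this, add_zero]

lemma Lop_star_long {D : ℕ} {A : Fn F} (hA : Hom D A) (B : Fn F) (a : List Bool)
    (ha : D ≤ a.length) : Lop a (star A B) = A (a.take D) • Lop (a.drop D) B := by
  funext w
  rw [Lop_apply]
  have e : a = a.take D ++ a.drop D := (List.take_append_drop D a).symm
  conv_lhs => rw [e, List.append_assoc]
  rw [star_hom_append hA _ _ _ (by rw [List.length_take]; omega)]
  rfl

lemma delta_Van (a : List Bool) : Van 1 (Lop a (delta : Fn F)) := by
  intro w hw
  rw [Lop_apply]
  unfold delta
  rw [if_neg]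
  intro h
  rw [List.append_eq_nil_iff] at h
  rw [h.2] at hw
  simp at hw

lemma kill1 {D e : ℕ} {A : Bool → Fn F} (hA : ∀ s, Hom D (A s)) (p : List (F × List Bool))
    (hp : ∀ x ∈ p, x.2 ≠ []) (hpe : ∀ x ∈ p, x.2.length ≤ e) (hC : Con D e A p)
    (ss a : List Bool) (hae : a.length ≤ e) (haD : a.length ≤ D) (c : ℕ) (hc : D + 1 ≤ c) :
    ((op p) ^ c) (Lop a (PP A ss)) = 0 := by
  cases ss with
  | nil => exact Van_pow p hp (delta_Van a) c (by omega)
  | cons s ss =>
    simp only [PP]
    rw [Lop_star_short (hA s) _ a haD, star_op_pow p hpe _ _ ?_ c,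
      Van_pow p hp (Hom_Van (hA s) a) c hc, star_zero_left]
    intro i β hβ
    by_cases hi : i ≤ D
    · exact hC s i a β hi hae hβ
    · rw [Van_pow p hp (Hom_Van (hA s) a) i (by omega)]
      rfl

lemma op_kill (p : List (F × List Bool)) (q : Fn F →ₗ[F] Fn F) (v : Fn F)
    (h : ∀ x ∈ p, q (Lop x.2 v) = 0) : q (op p v) = 0 := by
  induction p with
  | nil => simp [op]
  | cons x p ih =>
    simp only [op, LinearMap.add_apply, LinearMap.smul_apply, map_add, map_smul]
    rw [h x List.mem_cons_self, ih (fun y hy => h y (List.mem_cons_of_mem _ hy))]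
    simp

lemma kill2 {D e : ℕ} {A : Bool → Fn F} (hA : ∀ s, Hom D (A s)) (p : List (F × List Bool))
    (hp : ∀ x ∈ p, x.2 ≠ []) (hpe : ∀ x ∈ p, x.2.length ≤ e) (hC : Con D e A p)
    (ss : List Bool) (n : ℕ) : ∀ (a : List Bool), a.length ≤ D → D - a.length ≤ n →
    ∀ c : ℕ, D + 1 + n ≤ c → ((op p) ^ c) (Lop a (PP A ss)) = 0 := by
  induction n with
  | zero =>
    intro a haD hn c hc
    have hal : a.length = D := by omega
    cases ss with
    | nil => exact Van_pow p hp (delta_Van a) c (by omega)
    | cons s ss =>
      simp only [PP]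
      rw [Lop_star_long (hA s) _ a (by omega), map_smul]
      have : a.drop D = [] := by rw [List.drop_eq_nil_iff]; omega
      rw [this, kill1 hA p hp hpe hC ss [] (by simp) (by simp) c (by omega), smul_zero]
  | succ n ih =>
    intro a haD hn c hc
    by_cases hae : a.length ≤ e
    · exact kill1 hA p hp hpe hC ss a hae haD c (by omega)
    · push Not at hae
      obtain ⟨c, rfl⟩ : ∃ c', c = c' + 1 := ⟨c - 1, by omega⟩
      rw [pow_succ, Module.End.mul_apply]
      apply op_kill
      intro x hx
      have hx1 : 0 < x.2.length := List.length_pos_iff.mpr (hp x hx)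
      have hx2 := hpe x hx
      rw [Lop_Lop]
      by_cases hl : (a ++ x.2).length ≤ D
      · apply ih _ hl _ c (by omega)
        rw [List.length_append] at hl ⊢
        omega
      · push Not at hl
        cases ss with
        | nil => exact Van_pow p hp (delta_Van _) c (by omega)
        | cons s ss =>
          simp only [PP]
          rw [Lop_star_long (hA s) _ _ (by omega), map_smul]
          have hlen : ((a ++ x.2).drop D).length ≤ e ∧ ((a ++ x.2).drop D).length ≤ D := by
            rw [List.length_drop, List.length_append]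
            omega
          rw [kill1 hA p hp hpe hC ss _ hlen.1 hlen.2 c (by omega), smul_zero]

lemma kill3 {D e : ℕ} {A : Bool → Fn F} (hA : ∀ s, Hom D (A s)) (p : List (F × List Bool))
    (hp : ∀ x ∈ p, x.2 ≠ []) (hpe : ∀ x ∈ p, x.2.length ≤ e) (hC : Con D e A p)
    (c : ℕ) (hc : 2 * D + 1 ≤ c) (ss : List Bool) : ∀ (a : List Bool),
    ((op p) ^ c) (Lop a (PP A ss)) = 0 := by
  induction ss with
  | nil => intro a; exact Van_pow p hp (delta_Van _) c (by omega)
  | cons s ss ih =>
    intro a
    by_cases ha : a.length ≤ D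
    · exact kill2 hA p hp hpe hC (s :: ss) D a ha (by omega) c (by omega)
    · push Not at ha
      simp only [PP]
      rw [Lop_star_long (hA s) _ _ (by omega), map_smul, ih, smul_zero]

lemma kill_Mod {D e : ℕ} {A : Bool → Fn F} (hA : ∀ s, Hom D (A s)) (p : List (F × List Bool))
    (hp : ∀ x ∈ p, x.2 ≠ []) (hpe : ∀ x ∈ p, x.2.length ≤ e) (hC : Con D e A p)
    (v : Fn F) (hv : v ∈ Mod A) : ((op p) ^ (2 * D + 1)) v = 0 := by
  induction hv using Submodule.span_induction with
  | mem v h =>
    obtain ⟨a, ss, rfl⟩ := h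
    exact kill3 hA p hp hpe hC _ le_rfl ss a
  | zero => rw [map_zero]
  | add x y _ _ hx hy => rw [map_add, hx, hy, add_zero]
  | smul c x _ hx => rw [map_smul, hx, smul_zero]

/-! ### Linear algebra -/

lemma two_sol {Z K : Type} [Fintype Z] [Fintype K] (Φ : (Z → F) →ₗ[F] (K → F))
    (hcard : Fintype.card K + 2 ≤ Fintype.card Z) :
    ∃ (c : Bool → Z → F) (ζ : Bool → Z), (∀ s, Φ (c s) = 0) ∧
      ∀ s t, c s (ζ t) = if s = t then 1 else 0 := by
  have hZ : Module.finrank F (Z → F) = Fintype.card Z := Module.finrank_fintype_fun_eq_card F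
  have hK : Module.finrank F (K → F) = Fintype.card K := Module.finrank_fintype_fun_eq_card F
  have h1 : LinearMap.ker Φ ≠ ⊥ := by
    apply LinearMap.ker_ne_bot_of_finrank_lt
    rw [hZ, hK]; omega
  obtain ⟨c, hc, hc0⟩ := (Submodule.ne_bot_iff _).mp h1
  obtain ⟨ζ0, hζ0⟩ : ∃ z, c z ≠ 0 := by
    by_contra h
    push Not at h
    exact hc0 (funext h)
  have h2 : LinearMap.ker (Φ.prod (LinearMap.proj ζ0 : (Z → F) →ₗ[F] F)) ≠ ⊥ := by
    apply LinearMap.ker_ne_bot_of_finrank_lt
    rw [Module.finrank_prod, hZ, hK, Module.finrank_self]; omega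
  obtain ⟨d, hd, hd0⟩ := (Submodule.ne_bot_iff _).mp h2
  obtain ⟨ζ1, hζ1⟩ : ∃ z, d z ≠ 0 := by
    by_contra h
    push Not at h
    exact hd0 (funext h)
  rw [LinearMap.mem_ker] at hc hd
  have hd1 : Φ d = 0 := congrArg Prod.fst hd
  have hd2 : d ζ0 = 0 := congrArg Prod.snd hd
  set d' : Z → F := (d ζ1)⁻¹ • d with hd'
  set c' : Z → F := (c ζ0)⁻¹ • c with hc'
  refine ⟨fun s => if s then d' else c' - (c' ζ1) • d', fun s => if s then ζ1 else ζ0, ?_, ?_⟩
  · intro s
    cases s
    · simp [hc', hd', hc, hd1]
    · simp [hd', hd1]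
  · intro s t
    cases s <;> cases t
    · simp [hc', hd', hd2, hζ0]
    · simp [hd', hζ1]
    · simp [hd', hd2]
    · simp [hd', hζ1]

lemma exists_pow_ge (a b : ℕ) : ∃ m : ℕ, 1 ≤ m ∧ a * m + b ≤ 2 ^ m := by
  set n := 2 * a + b + 1 with hn
  refine ⟨2 * n, by omega, ?_⟩
  have h1 : n + 1 ≤ 2 ^ n := Nat.lt_two_pow_self
  have h2 : 2 ^ (2 * n) = 2 ^ n * 2 ^ n := by rw [← pow_add]; ring_nf
  rw [h2]
  calc a * (2 * n) + b ≤ (n + 1) * (n + 1) := by nlinarith
    _ ≤ 2 ^ n * 2 ^ n := Nat.mul_le_mul h1 h1

/-! ### Stages -/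

/-- The data of a stage. -/
structure Stage (F : Type) [Field F] where
  D : ℕ
  A : Bool → Fn F
  W : Bool → List Bool
  hD : 0 < D
  hA : ∀ s, Hom D (A s)
  hW : ∀ s, (W s).length = D
  hAW : ∀ s t, A s (W t) = if s = t then 1 else 0

lemma flat_len (S : Stage F) (ss : List Bool) : (ss.flatMap S.W).length = S.D * ss.length := by
  induction ss with
  | nil => simp
  | cons s ss ih =>
    rw [List.flatMap_cons, List.length_append, ih, S.hW, List.length_cons]
    ring

lemma PP_W (S : Stage F) (ss : List Bool) : ∀ ss' : List Bool, ss.length = ss'.length →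
    PP S.A ss (ss'.flatMap S.W) = if ss = ss' then 1 else 0 := by
  induction ss with
  | nil =>
    intro ss' h
    have : ss' = [] := List.length_eq_zero_iff.mp h.symm
    subst this
    simp [PP, delta]
  | cons s ss ih =>
    intro ss' h
    cases ss' with
    | nil => simp at h
    | cons s' ss' =>
      simp only [List.length_cons, add_left_inj] at h
      rw [List.flatMap_cons]
      simp only [PP]
      rw [star_hom_append (S.hA s) _ _ _ (S.hW s'), S.hAW, ih ss' h]
      by_cases h1 : s = s' <;> by_cases h2 : ss = ss' <;> simp [h1, h2]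

/-- All words of length at most `e`. -/
abbrev Wd (e : ℕ) : Type := Σ i : Fin (e + 1), (Fin i → Bool)

/-- The word. -/
def Wd.word {e : ℕ} (x : Wd e) : List Bool := List.ofFn x.2

lemma Wd.surj {e : ℕ} (w : List Bool) (hw : w.length ≤ e) : ∃ x : Wd e, x.word = w := by
  refine ⟨⟨⟨w.length, by omega⟩, w.get⟩, ?_⟩
  unfold Wd.word
  exact List.ofFn_get w

lemma exists_bound (p : List (F × List Bool)) : ∃ e : ℕ, ∀ x ∈ p, x.2.length ≤ e := by
  induction p with
  | nil => exact ⟨0, by simp⟩
  | cons y p ih =>
    obtain ⟨e, he⟩ := ih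
    refine ⟨e + y.2.length, ?_⟩
    intro x hx
    rcases List.mem_cons.mp hx with rfl | hx
    · omega
    · have := he x hx; omega

lemma flatMap_replicate (W : Bool → List Bool) (h : ℕ) :
    (List.replicate h false).flatMap W = (List.replicate h (W false)).flatten := by
  induction h with
  | zero => simp
  | succ h ih => rw [List.replicate_succ, List.replicate_succ, List.flatMap_cons, ih,
      List.flatten_cons]

/-- The main step. -/
lemma step (S : Stage F) (p : List (F × List Bool)) (hp : ∀ x ∈ p, x.2 ≠ []) (h : ℕ) :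
    ∃ S' : Stage F, Mod S'.A ≤ Mod S.A ∧ (∃ c, ∀ v ∈ Mod S'.A, ((op p) ^ c) v = 0) ∧
      (∃ z, S'.W false = (List.replicate h (S.W false)).flatten ++ z) ∧
      (∃ a, Lop a (S'.A false) = S.A false) := by
  obtain ⟨e, he⟩ := exists_bound p
  -- choose the length
  set E : ℕ := Fintype.card (Wd e) with hE
  obtain ⟨m, hm1, hm⟩ := exists_pow_ge (S.D * (E * E)) ((S.D * (h + 1) + 1) * (E * E) + 2)
  set D' : ℕ := S.D * (h + m + 1) with hD'
  have hcard : Fintype.card (Fin (D' + 1) × Wd e × Wd e) + 2 ≤ Fintype.card (Fin m → Bool) := by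
    rw [Fintype.card_prod, Fintype.card_prod, Fintype.card_fin, Fintype.card_fun,
      Fintype.card_fin, Fintype.card_bool, ← hE, hD']
    refine le_trans (le_of_eq ?_) hm
    ring
  -- the blocks
  set r : (Fin m → Bool) → List Bool := fun ζ => List.replicate h false ++ List.ofFn ζ with hr
  have hrl : ∀ ζ, (r ζ).length = h + m := fun ζ => by simp [hr]
  set B : (Fin m → Bool) → Fn F := fun ζ => PP S.A (r ζ ++ [false]) with hB
  set lin : ((Fin m → Bool) → F) →ₗ[F] Fn F :=
    { toFun := fun c => ∑ ζ, c ζ • B ζ
      map_add' := by intro x y; simp [add_smul, Finset.sum_add_distrib]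
      map_smul' := by intro x y; simp [mul_smul, Finset.smul_sum] } with hlin
  have hlina : ∀ c, lin c = ∑ ζ, c ζ • B ζ := fun c => rfl
  set Φ : ((Fin m → Bool) → F) →ₗ[F] ((Fin (D' + 1) × Wd e × Wd e) → F) :=
    LinearMap.pi fun k => (LinearMap.proj k.2.2.word) ∘ₗ ((op p) ^ (k.1 : ℕ)) ∘ₗ
      (Lop k.2.1.word) ∘ₗ lin with hΦ
  obtain ⟨c, ζ, hc, hcζ⟩ := two_sol Φ hcard
  set A' : Bool → Fn F := fun s => lin (c s) with hA'
  set W' : Bool → List Bool := fun s => (r (ζ s) ++ [false]).flatMap S.W with hW'
  have hHom : ∀ s, Hom D' (A' s) := by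
    intro s w hw
    simp only [hA', hlina, Finset.sum_apply, Pi.smul_apply]
    apply Finset.sum_eq_zero
    intro ξ _
    rw [hB]
    simp only
    rw [PP_hom S.hA, smul_zero]
    rw [List.length_append, hrl]
    simpa [hD'] using hw
  have hev : ∀ s (x : List Bool) (ξ0 : Fin m → Bool) (w : List Bool),
      A' s ((r ξ0).flatMap S.W ++ w) = c s ξ0 * S.A false w := by
    intro s x ξ0 w
    simp only [hA', hlina, Finset.sum_apply, Pi.smul_apply, smul_eq_mul]
    rw [Finset.sum_eq_single ξ0]
    · rw [hB]
      simp only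
      rw [PP_append S.hA _ _ _ _ (flat_len S _), PP_W S _ _ rfl, if_pos rfl, one_mul]
      simp [PP, star_delta]
    · intro ξ _ hne
      rw [hB]
      simp only
      rw [PP_append S.hA _ _ _ _ (by rw [flat_len, hrl, hrl]), PP_W S _ _ (by rw [hrl, hrl]),
        if_neg, zero_mul, mul_zero]
      intro heq
      apply hne
      rw [hr] at heq
      simp only [List.append_cancel_left_eq] at heq
      exact List.ofFn_injective heq
    · intro h; simp at h
  refine ⟨⟨D', A', W', ?_, hHom, ?_, ?_⟩, ?_, ?_, ?_, ?_⟩
  · rw [hD']; exact Nat.mul_pos S.hD (by omega)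
  · intro s
    rw [hW']
    simp only
    rw [flat_len, List.length_append, hrl, hD']
    simp
  · intro s t
    have : W' t = (r (ζ t)).flatMap S.W ++ S.W false := by
      rw [hW']; simp
    rw [this, hev s [], hcζ, S.hAW]
    simp
  · -- Mod S' ≤ Mod S
    show Mod A' ≤ Mod S.A
    set Sp : Submodule F (Fn F) := Submodule.span F (Set.range (PP S.A)) with hSp
    have hstar : ∀ x ∈ Sp, ∀ y ∈ Sp, star x y ∈ Sp := by
      intro x hx y hy
      induction hx using Submodule.span_induction with
      | mem x hx =>
        obtain ⟨ss, rfl⟩ := hx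
        induction hy using Submodule.span_induction with
        | mem y hy =>
          obtain ⟨ss', rfl⟩ := hy
          rw [star_PP S.hA]
          exact Submodule.subset_span ⟨_, rfl⟩
        | zero => rw [star_zero_right]; exact Submodule.zero_mem _
        | add x y _ _ hx hy => rw [star_add_right]; exact Submodule.add_mem _ hx hy
        | smul c x _ hx => rw [star_smul_right]; exact Submodule.smul_mem _ c hx
      | zero => rw [star_zero_left]; exact Submodule.zero_mem _
      | add x y _ _ hx hy => rw [star_add_left]; exact Submodule.add_mem _ hx hy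
      | smul c x _ hx => rw [star_smul_left]; exact Submodule.smul_mem _ c hx
    have hPP : ∀ ss, PP A' ss ∈ Sp := by
      intro ss
      induction ss with
      | nil => exact Submodule.subset_span ⟨[], rfl⟩
      | cons s ss ih =>
        simp only [PP]
        apply hstar _ _ _ ih
        rw [hA']
        simp only [hlina]
        apply Submodule.sum_mem
        intro ξ _
        apply Submodule.smul_mem
        exact Submodule.subset_span ⟨_, rfl⟩
    unfold Mod
    rw [Submodule.span_le]
    rintro v ⟨a, ss, rfl⟩
    have h1 := hPP ss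
    show Lop a (PP A' ss) ∈ Mod S.A
    generalize PP A' ss = y at h1
    induction h1 using Submodule.span_induction with
    | mem y hy => obtain ⟨ss', rfl⟩ := hy; exact mem_Mod _ _ _
    | zero => rw [map_zero]; exact Submodule.zero_mem _
    | add x y _ _ hx hy => rw [map_add]; exact Submodule.add_mem _ hx hy
    | smul c x _ hx => rw [map_smul]; exact Submodule.smul_mem _ c hx
  · refine ⟨2 * D' + 1, kill_Mod hHom p hp he ?_⟩
    intro s i α β hi hα hβ
    obtain ⟨α', rfl⟩ := Wd.surj α hα
    obtain ⟨β', rfl⟩ := Wd.surj β hβ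
    have := congrFun (hc s) (⟨i, by omega⟩, α', β')
    simpa [hΦ] using this
  · refine ⟨(List.ofFn (ζ false) ++ [false]).flatMap S.W, ?_⟩
    show W' false = _
    rw [hW', hr]
    simp only [List.append_assoc, List.flatMap_append]
    rw [flatMap_replicate]
  · refine ⟨(r (ζ false)).flatMap S.W, ?_⟩
    show Lop _ (A' false) = _
    funext w
    rw [Lop_apply, hev false [], hcζ]
    simp

/-! ### The sequence of stages -/

/-- The first stage. -/
def S0 : Stage F where
  D := 1
  A := fun b w => if w = [b] then 1 else 0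
  W := fun b => [b]
  hD := Nat.one_pos
  hA := by
    intro s w hw
    simp only
    rw [if_neg]
    rintro rfl
    simp at hw
  hW := by simp
  hAW := by
    intro s t
    simp only [List.cons.injEq, and_true]
    by_cases h : s = t
    · simp [h]
    · have h' : ¬ t = s := fun e => h e.symm
      simp [h, h']

/-- Remove the empty words. -/
noncomputable def clean (p : List (F × List Bool)) : List (F × List Bool) :=
  p.filter (fun x => x.2 ≠ [])

lemma clean_ne (p : List (F × List Bool)) : ∀ x ∈ clean p, x.2 ≠ [] := by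
  intro x hx
  have := List.of_mem_filter hx
  simpa using this

lemma clean_eq (p : List (F × List Bool)) (hp : ∀ x ∈ p, x.2 ≠ []) : clean p = p := by
  unfold clean
  rw [List.filter_eq_self]
  intro x hx
  simpa using hp x hx

/-- The sequence. -/
noncomputable def sq (e : ℕ → List (F × List Bool)) (H : ℕ → List Bool → ℕ) : ℕ → Stage F
  | 0 => S0
  | (n + 1) => Classical.choose (step (sq e H n) (clean (e n)) (clean_ne (e n))
      (H n ((sq e H n).W false).reverse))

lemma sq_spec (e : ℕ → List (F × List Bool)) (H : ℕ → List Bool → ℕ) (n : ℕ) :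
    Mod (sq e H (n + 1)).A ≤ Mod (sq e H n).A ∧
      (∃ c, ∀ v ∈ Mod (sq e H (n + 1)).A, ((op (clean (e n))) ^ c) v = 0) ∧
      (∃ z, (sq e H (n + 1)).W false =
        (List.replicate (H n ((sq e H n).W false).reverse) ((sq e H n).W false)).flatten ++ z) ∧
      (∃ a, Lop a ((sq e H (n + 1)).A false) = (sq e H n).A false) :=
  Classical.choose_spec (step (sq e H n) (clean (e n)) (clean_ne (e n))
      (H n ((sq e H n).W false).reverse))

lemma sq_anti (e : ℕ → List (F × List Bool)) (H : ℕ → List Bool → ℕ) {m n : ℕ} (h : m ≤ n) :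
    Mod (sq e H n).A ≤ Mod (sq e H m).A := by
  induction n, h using Nat.le_induction with
  | base => exact le_rfl
  | succ n _ ih => exact le_trans (sq_spec e H n).1 ih

lemma sq_back (e : ℕ → List (F × List Bool)) (H : ℕ → List Bool → ℕ) {m n : ℕ} (h : m ≤ n) :
    ∃ a, Lop a ((sq e H n).A false) = (sq e H m).A false := by
  induction n, h using Nat.le_induction with
  | base => exact ⟨[], Lop_nil _⟩
  | succ n _ ih =>
    obtain ⟨a, ha⟩ := ih
    obtain ⟨b, hb⟩ := (sq_spec e H n).2.2.2
    exact ⟨b ++ a, by rw [← Lop_Lop, hb, ha]⟩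

lemma A_mem (S : Stage F) (s : Bool) : S.A s ∈ Mod S.A := by
  have := mem_Mod S.A [] [s]
  rw [Lop_nil] at this
  simpa [PP, star_delta] using this

lemma sq_mem (e : ℕ → List (F × List Bool)) (H : ℕ → List Bool → ℕ) (m n : ℕ) :
    (sq e H n).A false ∈ Mod (sq e H m).A := by
  rcases le_total m n with h | h
  · exact sq_anti e H h (A_mem _ _)
  · obtain ⟨a, ha⟩ := sq_back e H h
    rw [← ha]
    exact Lop_mem_Mod _ _ (A_mem _ _)

/-- The limit module. -/
noncomputable def MM (e : ℕ → List (F × List Bool)) (H : ℕ → List Bool → ℕ) : Submodule F (Fn F) :=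
  ⨅ n, Mod (sq e H n).A

/-- The two generators. -/
noncomputable def gen (e : ℕ → List (F × List Bool)) (H : ℕ → List Bool → ℕ) (b : Bool) :
    Module.End F (MM e H) :=
  (Lop [b]).restrict (p := MM e H) (q := MM e H) (by
    intro v hv
    unfold MM at hv ⊢
    rw [Submodule.mem_iInf] at hv ⊢
    intro n
    exact Lop_mem_Mod _ _ (hv n))

lemma gen_apply (e : ℕ → List (F × List Bool)) (H : ℕ → List Bool → ℕ) (b : Bool)
    (v : MM e H) : ((gen e H b v : MM e H) : Fn F) = Lop [b] (v : Fn F) := rfl

lemma op_append (p q : List (F × List Bool)) : op (p ++ q) = op p + op q := by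
  induction p with
  | nil => simp [op]
  | cons x p ih => simp only [List.cons_append, op, ih]; abel

lemma op_smul (c : F) (p : List (F × List Bool)) :
    op (p.map (fun x => (c * x.1, x.2))) = c • op p := by
  induction p with
  | nil => simp [op]
  | cons x p ih => simp only [List.map_cons, op, ih, smul_add, mul_smul]

lemma op_Lop (a : List Bool) (p : List (F × List Bool)) :
    op (p.map (fun x => (x.1, x.2 ++ a))) = (Lop a).comp (op p) := by
  induction p with
  | nil => simp [op]
  | cons x p ih =>
    apply LinearMap.ext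
    intro P
    simp only [List.map_cons, op, ih, LinearMap.add_apply, LinearMap.smul_apply,
      LinearMap.comp_apply, map_add, map_smul, Lop_Lop]

lemma op_comp (p q : List (F × List Bool)) (hq : ∀ x ∈ q, x.2 ≠ []) :
    ∃ r : List (F × List Bool), (∀ x ∈ r, x.2 ≠ []) ∧ op r = (op p).comp (op q) := by
  induction p with
  | nil => exact ⟨[], by simp, by simp [op]⟩
  | cons x p ih =>
    obtain ⟨r, hr, hr2⟩ := ih
    refine ⟨((q.map (fun y => (y.1, y.2 ++ x.2))).map (fun y => (x.1 * y.1, y.2))) ++ r, ?_, ?_⟩
    · intro y hy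
      rcases List.mem_append.mp hy with hy | hy
      · simp only [List.map_map, List.mem_map, Function.comp] at hy
        obtain ⟨z, hz, rfl⟩ := hy
        have := hq z hz
        simp [this]
      · exact hr y hy
    · rw [op_append, op_smul, op_Lop, hr2]
      simp only [op]
      rw [LinearMap.add_comp, LinearMap.smul_comp]

lemma rep (e : ℕ → List (F × List Bool)) (H : ℕ → List Bool → ℕ) (x : Module.End F (MM e H))
    (hx : x ∈ NonUnitalAlgebra.adjoin F (Set.range (gen e H))) :
    ∃ p : List (F × List Bool), (∀ z ∈ p, z.2 ≠ []) ∧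
      ∀ v : MM e H, ((x v : MM e H) : Fn F) = op p (v : Fn F) := by
  induction hx using NonUnitalAlgebra.adjoin_induction with
  | mem x hx =>
    obtain ⟨b, rfl⟩ := hx
    refine ⟨[(1, [b])], by simp, ?_⟩
    intro v
    rw [gen_apply]
    simp [op]
  | add x y _ _ hx hy =>
    obtain ⟨p, hp, hp2⟩ := hx
    obtain ⟨q, hq, hq2⟩ := hy
    refine ⟨p ++ q, ?_, ?_⟩
    · intro z hz
      rcases List.mem_append.mp hz with hz | hz
      · exact hp z hz
      · exact hq z hz
    · intro v
      rw [op_append, LinearMap.add_apply, LinearMap.add_apply, Submodule.coe_add, hp2, hq2]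
  | zero => exact ⟨[], by simp, by intro v; simp [op]⟩
  | mul x y _ _ hx hy =>
    obtain ⟨p, hp, hp2⟩ := hx
    obtain ⟨q, hq, hq2⟩ := hy
    obtain ⟨r, hr, hr2⟩ := op_comp p q hq
    refine ⟨r, hr, ?_⟩
    intro v
    rw [hr2, Module.End.mul_apply, hp2, hq2, LinearMap.comp_apply]
  | smul c x _ hx =>
    obtain ⟨p, hp, hp2⟩ := hx
    refine ⟨p.map (fun x => (c * x.1, x.2)), ?_, ?_⟩
    · intro z hz
      obtain ⟨w, hw, rfl⟩ := List.mem_map.mp hz
      exact hp w hw
    · intro v
      rw [op_smul, LinearMap.smul_apply, LinearMap.smul_apply, Submodule.coe_smul, hp2]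

lemma word_apply (e : ℕ → List (F × List Bool)) (H : ℕ → List Bool → ℕ) (u : List Bool) :
    ∀ v : MM e H, (((u.map (gen e H)).prod v : MM e H) : Fn F) = Lop u.reverse (v : Fn F) := by
  induction u with
  | nil => intro v; simp [Lop_nil]
  | cons b u ih =>
    intro v
    rw [List.map_cons, List.prod_cons, Module.End.mul_apply, gen_apply, ih, Lop_Lop,
      List.reverse_cons]

lemma word_pow (e : ℕ → List (F × List Bool)) (H : ℕ → List Bool → ℕ) (u : List Bool)
    (n : ℕ) : ∀ (v : MM e H) (z : List Bool),
    ((((u.map (gen e H)).prod ^ n) v : MM e H) : Fn F) z =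
      (v : Fn F) ((List.replicate n u.reverse).flatten ++ z) := by
  induction n with
  | zero => intro v z; simp
  | succ n ih =>
    intro v z
    rw [pow_succ, Module.End.mul_apply, ih, word_apply, Lop_apply, List.replicate_succ,
      List.flatten_cons, List.append_assoc]

/-- The core construction. -/
theorem core [Countable F] (H : ℕ → List Bool → ℕ) :
    ∃ (V : Type) (_ : AddCommGroup V) (_ : Module F V) (y : Bool → Module.End F V),
      (∀ x ∈ NonUnitalAlgebra.adjoin F (Set.range y), ∃ n : ℕ, x ^ (n + 1) = 0) ∧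
      ∀ k, ∃ u : List Bool, u ≠ [] ∧ ((u.map y).prod) ^ (H k u) ≠ 0 := by
  obtain ⟨e, he⟩ := exists_surjective_nat (List (F × List Bool))
  refine ⟨MM e H, inferInstance, inferInstance, gen e H, ?_, ?_⟩
  · intro x hx
    obtain ⟨p, hp, hp2⟩ := rep e H x hx
    obtain ⟨n, hn⟩ := he p
    obtain ⟨c, hc⟩ := (sq_spec e H n).2.1
    rw [hn, clean_eq p hp] at hc
    refine ⟨c, ?_⟩
    have hpow : ∀ (j : ℕ) (v : MM e H), (((x ^ j) v : MM e H) : Fn F) = ((op p) ^ j) (v : Fn F) := by
      intro j
      induction j with
      | zero => intro v; simp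
      | succ j ih =>
        intro v
        rw [pow_succ', pow_succ', Module.End.mul_apply, Module.End.mul_apply, hp2, ih]
    have h0 : x ^ c = 0 := by
      apply LinearMap.ext
      intro v
      apply Subtype.ext
      rw [hpow]
      have hv : (v : Fn F) ∈ Mod (sq e H (n + 1)).A := by
        have := v.2
        unfold MM at this
        rw [Submodule.mem_iInf] at this
        exact this (n + 1)
      rw [hc _ hv]
      rfl
    rw [pow_succ, h0, zero_mul]
  · intro k
    refine ⟨((sq e H k).W false).reverse, ?_, ?_⟩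
    · intro h
      have h1 := congrArg List.length h
      rw [List.length_reverse, (sq e H k).hW] at h1
      have := (sq e H k).hD
      simp at h1
      omega
    · intro h0
      obtain ⟨z, hz⟩ := (sq_spec e H k).2.2.1
      have hmem : (sq e H (k + 1)).A false ∈ MM e H := by
        unfold MM
        rw [Submodule.mem_iInf]
        intro n
        exact sq_mem e H n (k + 1)
      have h1 := word_pow e H (((sq e H k).W false).reverse)
        (H k ((sq e H k).W false).reverse) ⟨_, hmem⟩ z
      rw [h0, List.reverse_reverse, ← hz] at h1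
      have h2 := (sq e H (k + 1)).hAW false false
      rw [if_pos rfl] at h2
      have h3 : ((sq e H (k + 1)).A false) ((sq e H (k + 1)).W false) = 0 := h1.symm
      rw [h2] at h3
      exact one_ne_zero h3

end Pool.Agent.Nil
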